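import Pool.Agent.X229.PerfectBases

namespace Pool.Agent.Results.MP_c73f8e_nt.OnlyTwoGroups

open Finset Pool.Agent.X229.PerfectBases

lemma elem_struct {V : Type*} [AddCommGroup V] [Finite V] (h : ∀ x : V, 2 • x = 0) (n : ℕ)
    (hc : Nat.card V = 2 ^ n) : Nonempty (V ≃+ (Fin n → ZMod 2)) := by
  let _ : Module (ZMod 2) V := AddCommGroup.zmodModule (n := 2) h
  have : Fact (Nat.Prime 2) := ⟨Nat.prime_two⟩
  have := Fintype.ofFinite V
  have hf : Module.finrank (ZMod 2) V = n := by
    have h1 := Module.card_eq_pow_finrank (K := ZMod 2) (V := V)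
    rw [ZMod.card, ← Nat.card_eq_fintype_card, hc] at h1
    exact (Nat.pow_right_injective le_rfl h1).symm
  exact ⟨(LinearEquiv.ofFinrankEq V (Fin n → ZMod 2)
    (by rw [hf, Module.finrank_fin_fun])).toAddEquiv⟩

lemma zmod2_cases : ∀ t : ZMod 2, t = 0 ∨ t = 1 := by decide

lemma struct4 {G : Type*} [AddCommGroup G] [Finite G] (b x : G) (hb : b ≠ 0)
    (h2b : b + b = 0) (hx : x + x = b) (hall : ∀ g : G, g + g = 0 ∨ g + g = b) (n : ℕ)
    (hc : Nat.card G = 2 ^ (n + 2)) : Nonempty (G ≃+ (Fin n → ZMod 2) × ZMod 4) := by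
  let K : AddSubgroup G := (nsmulAddMonoidHom (α := G) 2).ker
  have hK : ∀ g : G, g ∈ K ↔ g + g = 0 := by
    intro g
    rw [AddMonoidHom.mem_ker, nsmulAddMonoidHom_apply, two_nsmul]
  let _ : Module (ZMod 2) K := AddCommGroup.zmodModule (n := 2) (by
    intro y
    apply Subtype.ext
    rw [two_nsmul]
    exact (hK y).1 y.2)
  have : Fact (Nat.Prime 2) := ⟨Nat.prime_two⟩
  let b' : K := ⟨b, (hK b).2 h2b⟩
  obtain ⟨H, hH⟩ := Submodule.exists_isCompl (Submodule.span (ZMod 2) {b'})
  have h4 : (zmultiplesHom G x) ((4 : ℕ) : ℤ) = 0 := by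
    rw [zmultiplesHom_apply]
    have : ((4 : ℕ) : ℤ) • x = (x + x) + (x + x) := by
      rw [natCast_zsmul]
      have : (4 : ℕ) • x = x + x + (x + x) := by
        rw [show (4 : ℕ) = 2 + 2 from rfl, add_nsmul, two_nsmul]
      exact this
    rw [this, hx, h2b]
  let ψ : ZMod 4 →+ G := ZMod.lift 4 ⟨zmultiplesHom G x, h4⟩
  have p1 : ψ 1 = x := by
    have h1 := ZMod.lift_coe 4 ⟨zmultiplesHom G x, h4⟩ 1
    rw [Int.cast_one] at h1
    change ZMod.lift 4 ⟨zmultiplesHom G x, h4⟩ 1 = x
    rw [h1]
    simp
  have p0 : ψ 0 = 0 := map_zero ψ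
  have p2 : ψ 2 = b := by
    rw [show (2 : ZMod 4) = 1 + 1 from by decide, map_add, p1, hx]
  have p3 : ψ 3 = b + x := by
    rw [show (3 : ZMod 4) = 2 + 1 from by decide, map_add, p1, p2]
  have hz : ∀ k : ZMod 4, k = 0 ∨ k = 1 ∨ k = 2 ∨ k = 3 := by decide
  let φ : H × ZMod 4 →+ G :=
    AddMonoidHom.coprod (K.subtype.comp H.subtype.toAddMonoidHom) ψ
  have hφ : ∀ (h : H) (k : ZMod 4), φ (h, k) = ((h : K) : G) + ψ k := fun h k => rfl
  have hHd : ∀ h : H, ((h : K) : G) + ((h : K) : G) = 0 := fun h => (hK _).1 (h : K).2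
  have hbH : b' ∉ H := by
    intro h
    have h1 : b' ∈ Submodule.span (ZMod 2) {b'} ⊓ H :=
      ⟨Submodule.mem_span_singleton_self b', h⟩
    rw [hH.inf_eq_bot, Submodule.mem_bot] at h1
    exact hb (congrArg Subtype.val h1)
  have hinj : Function.Injective φ := by
    rw [injective_iff_map_eq_zero]
    rintro ⟨h, k⟩ hk
    rw [hφ] at hk
    have hd := hHd h
    rcases hz k with rfl | rfl | rfl | rfl
    · rw [p0, add_zero] at hk
      have : h = 0 := Subtype.ext (Subtype.ext hk)
      rw [this]; rfl
    · exfalso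
      rw [p1] at hk
      apply hb
      have h1 : (((h : K) : G) + x) + (((h : K) : G) + x)
          = (((h : K) : G) + ((h : K) : G)) + (x + x) := by abel
      rw [hk, hd, hx] at h1
      simpa using h1.symm
    · exfalso
      rw [p2] at hk
      apply hbH
      have h1 : ((h : K) : G) = b := by
        have h2 : ((h : K) : G) = (((h : K) : G) + b) + (b + b) - (b + b) - b := by abel
        rw [h2, hk, h2b]
        have h3 : (0 : G) + 0 - 0 - b = -b := by abel
        rw [h3]
        exact neg_eq_of_add_eq_zero_left h2b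
      have h2 : (h : K) = b' := Subtype.ext h1
      rw [← h2]; exact h.2
    · exfalso
      rw [p3] at hk
      apply hb
      have h1 : (((h : K) : G) + (b + x)) + (((h : K) : G) + (b + x))
          = (((h : K) : G) + ((h : K) : G)) + (b + b) + (x + x) := by abel
      rw [hk, hd, hx, h2b] at h1
      simpa using h1.symm
  -- elements of K
  have hKdec : ∀ g : G, g ∈ K → ∃ (h : H), g = ((h : K) : G) ∨ g = ((h : K) : G) + b := by
    intro g hg
    have h1 : (⟨g, hg⟩ : K) ∈ Submodule.span (ZMod 2) {b'} ⊔ H := by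
      rw [hH.sup_eq_top]; trivial
    obtain ⟨y, hy, z, hz', hyz⟩ := Submodule.mem_sup.1 h1
    obtain ⟨t, ht⟩ := Submodule.mem_span_singleton.1 hy
    have ht2 : ∀ t : ZMod 2, t = 0 ∨ t = 1 := zmod2_cases
    have hv := congrArg Subtype.val hyz
    change ((y : K) : G) + ((z : K) : G) = g at hv
    rcases ht2 t with rfl | rfl
    · refine ⟨⟨z, hz'⟩, Or.inl ?_⟩
      rw [zero_smul] at ht
      rw [← ht] at hv
      rw [← hv]
      change (0 : G) + (z : G) = (z : G)
      exact zero_add _
    · refine ⟨⟨z, hz'⟩, Or.inr ?_⟩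
      rw [one_smul] at ht
      rw [← ht] at hv
      rw [← hv]
      exact add_comm _ _
  have hsurj : Function.Surjective φ := by
    intro g
    rcases hall g with h | h
    · obtain ⟨z, hz1 | hz1⟩ := hKdec g ((hK g).2 h)
      · exact ⟨(z, 0), by rw [hφ, p0, add_zero, hz1]⟩
      · exact ⟨(z, 2), by rw [hφ, p2, hz1]⟩
    · have h1 : (g - x) ∈ K := by
        rw [hK]
        have : (g - x) + (g - x) = (g + g) - (x + x) := by abel
        rw [this, h, hx, sub_self]
      obtain ⟨z, hz1 | hz1⟩ := hKdec _ h1
      · exact ⟨(z, 1), by rw [hφ, p1, ← hz1]; abel⟩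
      · exact ⟨(z, 3), by
          rw [hφ, p3]
          have : ((z : K) : G) + (b + x) = (((z : K) : G) + b) + x := by abel
          rw [this, ← hz1]; abel⟩
  let e : H × ZMod 4 ≃+ G := AddEquiv.ofBijective φ ⟨hinj, hsurj⟩
  have hcard : Nat.card H = 2 ^ n := by
    have h1 := Nat.card_congr e.toEquiv
    rw [Nat.card_prod, Nat.card_zmod, hc, pow_add] at h1
    have h2 : Nat.card H * 4 = 2 ^ n * 4 := by rw [h1]; norm_num
    exact Nat.eq_of_mul_eq_mul_right (by norm_num) h2
  obtain ⟨f⟩ := elem_struct (V := H) (by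
    intro h
    apply Subtype.ext
    apply Subtype.ext
    have := hHd h
    rw [two_nsmul]
    exact this) n hcard
  exact ⟨e.symm.trans (AddEquiv.prodCongr f (AddEquiv.refl _))⟩

/-- **Main theorem.** For every `s ≥ 1`, a finite abelian group of order `2^(2s)` that has a
perfect restricted `s`-basis of size `2s+1` is isomorphic to `Z_2^(2s)` or to
`Z_2^(2s-2) × Z_4`. -/
theorem result : ∀ s : ℕ, 1 ≤ s → ∀ (G : Type) [AddCommGroup G] [Finite G],
    Nat.card G = 2 ^ (2 * s) → (∃ A : Finset G, A.card = 2 * s + 1 ∧ IsPerfect s A) →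
    Nonempty (G ≃+ (Fin (2 * s) → ZMod 2)) ∨
      Nonempty (G ≃+ (Fin (2 * s - 2) → ZMod 2) × ZMod 4) := by
  intro s hs G _ _ hc ⟨A, hA, h⟩
  classical
  obtain ⟨D, ρ, st⟩ := exSetup h hA
  rcases st.structure_thm hs with ⟨c, hcA⟩ | ⟨b, hbA, hbx⟩
  · left
    have hc0 : c = 0 := by
      obtain ⟨B, ⟨hB, cB, eB⟩, _⟩ := h c
      by_cases hne : B.Nonempty
      · obtain ⟨x, hx⟩ := hne
        exfalso
        have e1 : B.erase x = {x} := by
          apply uniq h ((erase_subset _ _).trans hB) (singleton_subset_iff.2 (hB hx))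
            ((card_le_card (erase_subset _ _)).trans cB) (by rw [card_singleton]; exact hs)
          rw [sum_singleton]
          have h1 := Finset.add_sum_erase B (fun b => b) hx
          rw [eB, ← hcA x (hB hx)] at h1
          exact add_left_cancel h1
        exact (notMem_erase x B) (by rw [e1]; exact mem_singleton_self x)
      · rw [not_nonempty_iff_eq_empty] at hne
        rw [← eB, hne, sum_empty]
    apply elem_struct _ _ hc
    intro g
    obtain ⟨B, ⟨hB, cB, eB⟩, _⟩ := h g
    rw [two_nsmul, ← eB, ← sum_add_distrib]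
    apply sum_eq_zero
    intro x hx
    rw [hcA x (hB hx), hc0]
  · right
    have hcardA : 3 ≤ A.card := by omega
    have hb0 : b ≠ 0 := by
      intro h0
      have e1 : ({b} : Finset G) = ∅ := by
        apply uniq h (singleton_subset_iff.2 hbA) (empty_subset _)
          (by rw [card_singleton]; exact hs) (by rw [card_empty]; omega)
        rw [sum_singleton, sum_empty, h0]
      exact singleton_ne_empty b e1
    obtain ⟨x, hx⟩ : (A.erase b).Nonempty := by
      apply card_pos.1
      rw [card_erase_of_mem hbA]; omega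
    rw [mem_erase] at hx
    have hxb := hbx x hx.2 hx.1
    have h2b : b + b = 0 := by
      by_cases hs1 : s = 1
      · subst hs1
        have h1 : Nat.card G • x = 0 := card_nsmul_eq_zero'
        rw [hc] at h1
        have h2 : (2 ^ (2 * 1)) • x = (x + x) + (x + x) := by
          rw [show (2 ^ (2 * 1)) = 2 + 2 from rfl, add_nsmul, two_nsmul]
        rw [h2, hxb] at h1
        exact h1
      · obtain ⟨B, ⟨hB, cB, eB⟩, _⟩ := h (b + b)
        by_cases hne : B.Nonempty
        · exfalso
          by_cases hbB : b ∈ B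
          · have e1 : B.erase b = {b} := by
              apply uniq h ((erase_subset _ _).trans hB) (singleton_subset_iff.2 (hB hbB))
                ((card_le_card (erase_subset _ _)).trans cB) (by rw [card_singleton]; exact hs)
              rw [sum_singleton]
              have h1 := Finset.add_sum_erase B (fun b => b) hbB
              rw [eB] at h1
              exact add_left_cancel h1
            exact (notMem_erase b B) (by rw [e1]; exact mem_singleton_self b)
          · obtain ⟨y, hy⟩ := hne
            have hyb : y ≠ b := fun h => hbB (h ▸ hy)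
            have hyy := hbx y (hB hy) hyb
            have e1 : B.erase y = {b, y} := by
              apply uniq h ((erase_subset _ _).trans hB)
                (insert_subset hbA (singleton_subset_iff.2 (hB hy)))
                ((card_le_card (erase_subset _ _)).trans cB)
                (by rw [card_pair hyb.symm]; omega)
              rw [sum_pair hyb.symm]
              have h1 := Finset.add_sum_erase B (fun b => b) hy
              rw [eB] at h1
              have h2 : b + b = y + (b + y) := by
                have : y + (b + y) = (y + y) + b := by abel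
                rw [this, hyy]
              rw [h2] at h1
              exact add_left_cancel h1
            exact (notMem_erase y B) (by rw [e1]; simp)
        · rw [not_nonempty_iff_eq_empty] at hne
          rw [← eB, hne, sum_empty]
    have hall : ∀ g : G, g + g = 0 ∨ g + g = b := by
      intro g
      obtain ⟨B, ⟨hB, cB, eB⟩, _⟩ := h g
      rw [← eB]
      apply Finset.sum_induction (fun b => b) (fun g => g + g = 0 ∨ g + g = b)
      · intro u v hu hv
        have h1 : (u + v) + (u + v) = (u + u) + (v + v) := by abel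
        rw [h1]
        rcases hu with hu | hu <;> rcases hv with hv | hv <;> rw [hu, hv] <;> simp [h2b]
      · left; exact add_zero 0
      · intro y hy
        by_cases hyb : y = b
        · left; rw [hyb]; exact h2b
        · right; exact hbx y (hB hy) hyb
    apply struct4 b x hb0 h2b hxb hall
    rw [hc]
    congr 1
    omega

end Pool.Agent.Results.MP_c73f8e_nt.OnlyTwoGroups
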